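import Pool.Agent.H27.ValSq

/-! Automaticity of the valuations of the coloured partition counts when the valuation of `m` is large or `a = 2`. -/

namespace Pool.Agent.Results.MP_9acee6_nt.Multiple
open Finset PowerSeries

set_option maxHeartbeats 400000

/-- The series `1 / (1 - X ^ d)`. -/
noncomputable def G (R : Type) [Semiring R] (d : ℕ) : R⟦X⟧ := PowerSeries.mk fun j => if d ∣ j then 1 else 0

/-- The generating product, with the factors `i ≤ N`. -/
noncomputable def A (R : Type) [CommSemiring R] (k m N : ℕ) : R⟦X⟧ :=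
  G R 1 ^ m * ∏ i ∈ range (N + 1), G R (k ^ i) ^ (m * (k - 1))

/-- The coloured partition count; the factors with `i > n` do not change the `n`-th coefficient. -/
noncomputable def S (k m n : ℕ) : ℕ := coeff n (A ℕ k m n)

variable {K : Type} [Field K]

def LD (F B : K⟦X⟧) : Prop := X * d⁄dX K F = B * F

theorem th (F : K⟦X⟧) (n : ℕ) : coeff n (X * d⁄dX K F) = n * coeff n F := by
  rcases n with _ | n
  · simp
  · rw [coeff_succ_X_mul, coeff_derivative]; push_cast; ring

theorem LD.mul {F B F' B' : K⟦X⟧} (h : LD F B) (h' : LD F' B') : LD (F * F') (B + B') := by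
  rw [LD, Derivation.leibniz, smul_eq_mul, smul_eq_mul] at *
  linear_combination F' * h + F * h'

theorem LD.pow {F B : K⟦X⟧} (h : LD F B) (m : ℕ) : LD (F ^ m) (m • B) := by
  induction m with
  | zero => simp [LD]
  | succ m ih => rw [pow_succ, succ_nsmul]; exact ih.mul h

theorem LG {d : ℕ} (hd : 0 < d) : LD (G K d) (d • (G K d - 1)) := by
  have e : G K d * (1 - X ^ d) = 1 := by
    ext n
    rw [mul_sub, mul_one, map_sub, coeff_mul_X_pow', G, coeff_mk, coeff_mk, coeff_one]
    by_cases h : d ≤ n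
    · simp only [if_pos h, Nat.dvd_sub_iff_left h dvd_rfl, sub_self, if_neg (show n ≠ 0 by omega)]
    · rw [if_neg h, sub_zero]
      exact if_congr ⟨fun g => Nat.eq_zero_of_dvd_of_lt g (by omega), fun g => by simp [g]⟩ rfl rfl
  have e' := congrArg (fun F => X * d⁄dX K F) e
  obtain ⟨c, rfl⟩ : ∃ c, d = c + 1 := ⟨d - 1, by omega⟩
  simp only [Derivation.leibniz, smul_eq_mul, map_sub, derivative_pow, Derivation.map_one_eq_zero, derivative_X,
    add_tsub_cancel_right] at e'
  rw [LD, nsmul_eq_mul]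
  linear_combination G K (c + 1) * e' - (X * d⁄dX K (G K (c + 1)) + ((c + 1 : ℕ) : K⟦X⟧) * G K (c + 1)) * e

theorem expo [CharZero K] {F B : K⟦X⟧} (h : LD F B) (h0 : coeff 0 F = 1) (h1 : coeff 0 B = 0) (n : ℕ) : ∀ Q, n ≤ Q →
    coeff n F = coeff n (∑ q ∈ range (Q + 1), C (q.factorial : K)⁻¹ * (PowerSeries.mk fun r => coeff r B / r) ^ q) := by
  set M : K⟦X⟧ := PowerSeries.mk fun r => coeff r B / r
  have e : X * d⁄dX K M = B := by
    ext r
    rw [th, coeff_mk]
    rcases r with _ | r
    · simp [h1]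
    · field_simp
  induction n using Nat.strong_induction_on with
  | _ n ih =>
    intro Q hQ
    rcases n with _ | n
    · rw [sum_range_succ', h0]
      simp [M]
    · obtain ⟨Q, rfl⟩ : ∃ c, Q = c + 1 := ⟨Q - 1, by omega⟩
      refine mul_left_cancel₀ (Nat.cast_ne_zero.mpr n.succ_ne_zero) ?_
      have e' : X * d⁄dX K (∑ q ∈ range (Q + 1 + 1), C (q.factorial : K)⁻¹ * M ^ q) =
          B * ∑ q ∈ range (Q + 1), C (q.factorial : K)⁻¹ * M ^ q := by
        rw [sum_range_succ', map_add, map_sum, mul_add, mul_sum, mul_sum, pow_zero, mul_one, derivative_C, mul_zero, add_zero]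
        refine sum_congr rfl fun q _ => ?_
        rw [Derivation.leibniz, derivative_C, smul_zero, add_zero, smul_eq_mul, derivative_pow, add_tsub_cancel_right, ← e,
          show (C (q.factorial : K)⁻¹ : K⟦X⟧) = C ((q + 1).factorial : K)⁻¹ * ((q + 1 : ℕ) : K⟦X⟧) by
            rw [← map_natCast (C : K →+* K⟦X⟧), ← map_mul, Nat.factorial_succ]; congr 1; push_cast; field_simp]
        ring
      rw [← th, ← th, h, e', coeff_mul, coeff_mul]
      refine sum_congr rfl fun x hx => ?_
      have := mem_antidiagonal.mp hx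
      rcases x with ⟨_ | i, j⟩
      · simp [h1]
      · rw [ih j (by simp at this; omega) Q (by simp at this; omega)]

variable {p : ℕ} [hp : Fact p.Prime]

theorem nn {x : ℕ} (hx : x ≠ 0) : ‖(x : ℚ_[p])‖ = (p : ℝ) ^ (-(padicValNat p x : ℤ)) := by
  rw [Padic.norm_eq_zpow_neg_valuation (Nat.cast_ne_zero.mpr hx), Padic.valuation_natCast]

theorem nb {M : ℚ_[p]⟦X⟧} {n : ℕ} {r : ℝ} (hr : 0 ≤ r) (h : ∀ i ≤ n, ‖coeff i M‖ ≤ r) (q : ℕ) :
    ∀ i ≤ n, ‖coeff i (M ^ q)‖ ≤ r ^ q := by
  induction q with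
  | zero => intro i _; rw [pow_zero, pow_zero, coeff_one]; split_ifs <;> simp
  | succ q ih =>
    intro i hi
    rw [pow_succ, coeff_mul]
    refine IsUltrametricDist.norm_sum_le_of_forall_le_of_nonneg (by positivity) fun x hx => ?_
    have := mem_antidiagonal.mp hx
    rw [norm_mul, pow_succ]
    exact mul_le_mul (ih _ (by omega)) (h _ (by omega)) (norm_nonneg _) (by positivity)

omit hp in
theorem val (p a m n : ℕ) (hp : p.Prime) (ha : 0 < a) (hm : 0 < m) 
    (h : p ^ a ∣ m ∨ p ≠ 2 ∧ p ^ a ∣ p * m ∨ a = 2 ∧ 5 ≤ p) (hn : 0 < n) :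
    padicValNat p (S (p ^ a) m n) + padicValNat p n % a = padicValNat p m + a := by
  haveI := Fact.mk hp
  have k1 : 1 ≤ p ^ a := Nat.one_le_pow _ _ hp.pos
  have p1 : (1 : ℝ) < p := by exact_mod_cast hp.one_lt
  have p0 := hp.pos
  have hμ : ∀ q, padicValNat p (q + 1 + 1).factorial + a ≤ (q + 1) * (padicValNat p m + 1) + padicValNat p n % a ∨
      q = 0 ∧ a = 2 ∧ 5 ≤ p ∧ padicValNat p m = 0 ∧ padicValNat p n % 2 = 0 := fun q => by
    have := sub_one_mul_padicValNat_factorial_lt_of_ne_zero p (n := q + 1 + 1) (by omega)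
    obtain ⟨c, rfl⟩ : ∃ c, p = c + 2 := ⟨p - 2, by have := hp.two_le; omega⟩
    rw [show c + 2 - 1 = c + 1 from rfl] at this
    rcases h with h | ⟨h', h⟩ | ⟨rfl, h⟩
    · exact .inl (le_add_right (by
        nlinarith [(padicValNat_dvd_iff_le hm.ne').mp h, Nat.zero_le (q * padicValNat (c + 2) m)]))
    swap
    · have : 4 * padicValNat (c + 2) (q + 1 + 1).factorial < q + 1 + 1 := by nlinarith [show 3 ≤ c by omega]
      have : (q + 1) * (padicValNat (c + 2) m + 1) = q * padicValNat (c + 2) m + padicValNat (c + 2) m + q + 1 := by ring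
      omega
    · refine .inl (le_add_right ?_)
      rw [padicValNat_dvd_iff_le (by positivity), padicValNat.mul p0.ne' hm.ne', padicValNat_self] at h
      have : 2 * padicValNat (c + 2) (q + 1 + 1).factorial < q + 1 + 1 := by nlinarith [show 0 < c by omega]
      have : padicValNat (c + 2) (q + 1 + 1).factorial ≤ q := by omega
      nlinarith [Nat.zero_le (q * padicValNat (c + 2) m)]
  obtain ⟨B, hB, b0, b1⟩ : ∃ B, LD (A ℚ_[p] (p ^ a) m n) B ∧ coeff 0 B = 0 ∧
      ∀ r, 0 < r → r ≤ n → coeff r B = (m * p ^ (a * (padicValNat p r / a + 1)) : ℕ) := by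
    refine ⟨m • (1 • (G _ 1 - 1)) + ∑ i ∈ range (n + 1), (m * (p ^ a - 1)) • ((p ^ a) ^ i • (G _ ((p ^ a) ^ i) - 1)),
      ((LG one_pos).pow m).mul ?_, by simp [G], fun r h1 h2 => ?_⟩
    · induction n + 1 with
      | zero => simp [LD]
      | succ N ih => rw [prod_range_succ, sum_range_succ]; exact ih.mul ((LG (by positivity)).pow _)
    · have e : (range (n + 1)).filter (fun i => (p ^ a) ^ i ∣ r) = range (padicValNat p r / a + 1) := by
        ext i
        have := (Nat.lt_pow_self hp.one_lt).trans_le (Nat.le_of_dvd h1 (pow_padicValNat_dvd (p := p) (n := r)))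
        have := Nat.div_le_self (padicValNat p r) a
        rw [mem_filter, mem_range, mem_range, ← pow_mul, padicValNat_dvd_iff_le h1.ne', mul_comm,
          ← Nat.le_div_iff_mul_le ha]
        omega
      simp only [map_add, map_sum, map_nsmul, map_sub, G, coeff_mk, coeff_one, if_neg h1.ne', sub_zero, one_dvd, if_true]
      simp only [nsmul_eq_mul, mul_ite, mul_one, mul_zero, ← sum_filter, e, ← mul_sum, pow_mul]
      push_cast [Nat.cast_sub k1]
      linear_combination (m : ℚ_[p]) * mul_geom_sum ((p : ℚ_[p]) ^ a) (padicValNat p r / a + 1)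
  have e := expo hB (by simp [A, G, map_prod]) b0 n n le_rfl
  set M : ℚ_[p]⟦X⟧ := PowerSeries.mk fun r => coeff r B / r
  have hM : ∀ r, 0 < r → r ≤ n → ‖coeff r M‖ = (p : ℝ) ^ (-((padicValNat p m + a : ℕ) - (padicValNat p r % a : ℕ) : ℤ)) :=
    fun r h1 h2 => by
      rw [coeff_mk, b1 r h1 h2, norm_div, nn (by positivity), nn h1.ne', padicValNat.mul hm.ne' (by positivity),
        padicValNat.prime_pow, ← zpow_sub₀ (by positivity)]
      congr 1
      have := Nat.div_add_mod (padicValNat p r) a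
      rw [mul_add, mul_one]
      omega
  have hq := nb (M := M) (n := n) (r := (p : ℝ) ^ (-(padicValNat p m + 1 : ℤ))) (by positivity) fun i hi => by
    rcases i.eq_zero_or_pos with rfl | h1
    · simp [M]; positivity
    · rw [hM i h1 hi]
      have := Nat.mod_lt (padicValNat p i) ha
      exact zpow_le_zpow_right₀ p1.le (by omega)
  obtain ⟨n, rfl⟩ : ∃ c, n = c + 1 := ⟨n - 1, by omega⟩
  rw [sum_range_succ', sum_range_succ', show coeff (n + 1) (A ℚ_[p] (p ^ a) m (n + 1)) = (S (p ^ a) m (n + 1) : ℚ_[p]) by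
    have g : ∀ d, PowerSeries.map (Nat.castRingHom ℚ_[p]) (G ℕ d) = G _ d := fun d => by ext; simp [G]
    rw [S, ← eq_natCast (Nat.castRingHom ℚ_[p]), ← coeff_map]
    simp [A, g]] at e
  simp only [map_add, map_sum, coeff_C_mul, pow_zero, coeff_one, if_neg n.succ_ne_zero, mul_zero, add_zero, zero_add,
    pow_one, Nat.factorial_one, Nat.cast_one, inv_one, one_mul] at e
  have h2 : ‖∑ q ∈ range n, ((q + 1 + 1).factorial : ℚ_[p])⁻¹ * coeff (n + 1) (M ^ (q + 1 + 1))‖ < ‖coeff (n + 1) M‖ := by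
    refine lt_of_le_of_lt (IsUltrametricDist.norm_sum_le_of_forall_le_of_nonneg
      (C := (p : ℝ) ^ (-(padicValNat p m + a - (padicValNat p (n + 1) % a : ℕ) + 1 : ℤ))) (by positivity) fun q _ => ?_) ?_
    · rw [norm_mul, norm_inv, nn (Nat.factorial_ne_zero _), ← zpow_neg, neg_neg]
      rcases hμ q with this | ⟨rfl, rfl, h5, t1, t2⟩
      swap
      · have t3 := Pool.Agent.H27.ValSq.sq3 (m := m) h5 hn t2 (fun r => coeff r M) (by simp [M]) fun r h1 h2 => by
          rw [coeff_mk, b1 r h1 h2]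
        rw [show padicValNat p (Nat.factorial (0 + 1 + 1)) = 0 from padicValNat.eq_zero_of_not_dvd fun h : p ∣ 2 =>
          absurd (Nat.le_of_dvd two_pos h) (by omega), t1, t2, show M ^ (0 + 1 + 1) = M * M from sq M, coeff_mul, Finset.Nat.sum_antidiagonal_eq_sum_range_succ fun r s => coeff r M * coeff s M, sum_range_succ]
        simpa [M] using t3
      refine (mul_le_mul_of_nonneg_left (hq _ _ le_rfl) (by positivity)).trans ?_
      rw [← zpow_natCast, ← zpow_mul, ← zpow_add₀ (by positivity)]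
      refine zpow_le_zpow_right₀ p1.le ?_
      push_cast
      nlinarith
    · rw [hM _ hn le_rfl]
      exact zpow_lt_zpow_right₀ p1 (by omega)
  have h3 : ‖(S (p ^ a) m (n + 1) : ℚ_[p])‖ = ‖coeff (n + 1) M‖ := by
    rw [e, IsUltrametricDist.norm_add_eq_max_of_norm_ne_norm h2.ne, max_eq_right h2.le]
  have h4 : S (p ^ a) m (n + 1) ≠ 0 := fun z => by
    rw [z, Nat.cast_zero, norm_zero] at h3
    exact absurd (h3 ▸ h2) (not_lt.mpr (norm_nonneg _))
  rw [nn h4, hM _ hn le_rfl] at h3
  have := zpow_right_injective₀ (by positivity) p1.ne' h3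
  omega

/-- The `p`-kernel of a sequence. -/
def kernel (p : ℕ) (e : ℕ → ℕ) : Set (ℕ → ℕ) := {b | ∃ i j : ℕ, j < p ^ i ∧ b = fun n => e (p ^ i * n + j)}

omit hp in
theorem result (p a m : ℕ) (hp : p.Prime) (ha : 0 < a) (hm : 0 < m) 
    (h : p ^ a ∣ m ∨ p ≠ 2 ∧ p ^ a ∣ p * m ∨ a = 2 ∧ 5 ≤ p) :
    (kernel p fun n => padicValNat p (S (p ^ a) m n)).Finite := by
  have v := fun n => val p a m n hp ha hm h
  haveI := Fact.mk hp
  have p0 := hp.pos
  refine (((Set.finite_Iic (padicValNat p m + a)).image fun c _ => c).union ((Set.finite_Iio a).image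
    fun i n => padicValNat p (S (p ^ a) m (p ^ i * n)))).subset ?_
  rintro _ ⟨i, j, hj, rfl⟩
  rcases j.eq_zero_or_pos with rfl | j0
  · refine .inr ⟨i % a, Nat.mod_lt _ ha, funext fun n => ?_⟩
    rcases n.eq_zero_or_pos with rfl | hn
    · simp
    · have h1 := v (p ^ i * n) (by positivity)
      have h2 := v (p ^ (i % a) * n) (by positivity)
      rw [padicValNat.mul (by positivity) hn.ne', padicValNat.prime_pow] at h1 h2
      rw [Nat.mod_add_mod] at h2
      simp only [add_zero]
      omega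
  · refine .inl ⟨padicValNat p m + a - padicValNat p j % a, Nat.sub_le _ _, funext fun n => ?_⟩
    have h1 := v (p ^ i * n + j) (by positivity)
    have h2 : padicValNat p j < i := (Nat.pow_lt_pow_iff_right hp.one_lt).mp
      ((Nat.le_of_dvd j0 pow_padicValNat_dvd).trans_lt hj)
    have h3 : ∀ e ≤ i, e ≤ padicValNat p (p ^ i * n + j) ↔ e ≤ padicValNat p j := fun e he => by
      rw [← padicValNat_dvd_iff_le (by positivity), ← padicValNat_dvd_iff_le j0.ne']
      exact Nat.dvd_add_right ((pow_dvd_pow _ he).mul_right _)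
    rw [show padicValNat p (p ^ i * n + j) = padicValNat p j by
      have := h3 _ h2.le
      have := h3 _ h2
      omega] at h1
    simp only
    omega

end Pool.Agent.Results.MP_9acee6_nt.Multiple
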